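import Pool.Agent.Lib_MP_592c03_gt.Jones

/-!
# Asymptotics of the twist numbers of weaving links

For every `n ≥ 2` and every `k`, with `r = ⌊n / 2⌋` and `d = n mod 2`, the twist numbers of the
weaving links `W(n+1, m)` satisfy `T_k(m) / (((r + d)^k + r^k) m^k / k!) → 1` as `m → ∞`.

The definitions (closed braid diagrams, Kauffman bracket, Jones polynomial, twist numbers, weaving
braid words) are in `Pool.Agent.Lib_MP_592c03_gt.Defs`.
-/

set_option autoImplicit false

namespace Pool.Agent.Results.MP_592c03_gt.WeavingTwistNumbers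

open Filter Topology

open Pool.Agent.MP_592c03_gt in
/-- The asymptotic formula for the twist numbers of weaving links: with `r = n / 2` (rounded down)
and `d = n % 2`, the quotient of `T_k(W(n+1, m))` by `((r + d)^k + r^k) m^k / k!` tends to `1` as
`m` tends to infinity. -/
theorem result (n : ℕ) (hn : 2 ≤ n) (k : ℕ) :
    Tendsto (fun m : ℕ => (twistNumber (jones (weaving n m)) k : ℝ) /
      ((((n / 2 + n % 2 : ℕ) : ℝ) ^ k + ((n / 2 : ℕ) : ℝ) ^ k) * (m : ℝ) ^ k / k.factorial))
      atTop (𝓝 1) :=
  main n hn k

end Pool.Agent.Results.MP_592c03_gt.WeavingTwistNumbers
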